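import Mathlib

/-!
Monotone operators on a normed space and locating sets: definitions.
-/

set_option autoImplicit false

namespace Q93.Loc

variable {X : Type*} [NormedAddCommGroup X] [NormedSpace ℝ X]

/-- The pair `p = (x, x')` is monotonically related to the operator (graph) `S`:
`⟨x - u, x' - u'⟩ ≥ 0` for every `(u, u') ∈ S`. -/
def MonotonicallyRelated (S : Set (X × (X →L[ℝ] ℝ))) (p : X × (X →L[ℝ] ℝ)) : Prop :=
  ∀ q ∈ S, 0 ≤ (p.2 - q.2) (p.1 - q.1)

/-- `T` is a monotone operator: any two points of its graph are monotonically related. -/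
def IsMonotoneOp (T : Set (X × (X →L[ℝ] ℝ))) : Prop :=
  ∀ p ∈ T, MonotonicallyRelated T p

/-- `T` is maximal monotone: it is monotone, and it contains every pair which is monotonically
related to it. -/
def IsMaximalMonotoneOp (T : Set (X × (X →L[ℝ] ℝ))) : Prop :=
  IsMonotoneOp T ∧ ∀ p, MonotonicallyRelated T p → p ∈ T

/-- The domain of the operator `T`. -/
def dom (T : Set (X × (X →L[ℝ] ℝ))) : Set X := {x | ∃ x' : X →L[ℝ] ℝ, (x, x') ∈ T}

/-- The restriction `T|_V`. -/
def restrict (T : Set (X × (X →L[ℝ] ℝ))) (V : Set X) : Set (X × (X →L[ℝ] ℝ)) :=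
  {p | p ∈ T ∧ p.1 ∈ V}

/-- `V` locates `T`: every `(x, x')` with `x ∈ V` which is monotonically related to `T|_V` has
`x ∈ D(T)`. -/
def Locates (V : Set X) (T : Set (X × (X →L[ℝ] ℝ))) : Prop :=
  ∀ p : X × (X →L[ℝ] ℝ), p.1 ∈ V → MonotonicallyRelated (restrict T V) p → p.1 ∈ dom T

end Q93.Loc
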