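import Pool.Agent.Q93.Loc.Poly

/-!
The normal cone operator of the cone of nonnegative polynomials.
-/

set_option autoImplicit false

namespace Q93.Loc

open Polynomial MeasureTheory Filter Topology
open scoped Polynomial

lemma norm_eq (p : Poly) : ‖p‖ = ∫ t in (0 : ℝ)..1, |ev p t| := rfl

/-- The functional `p ↦ ∫ t in a..b, p`. -/
noncomputable def intL (a b : ℝ) (ha : 0 ≤ a) (hab : a ≤ b) (hb : b ≤ 1) : Poly →L[ℝ] ℝ :=
  LinearMap.mkContinuous
    { toFun := fun p => ∫ t in a..b, ev p t
      map_add' := fun p q => by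
        simp only [ev_add]
        exact intervalIntegral.integral_add (int_ev p a b) (int_ev q a b)
      map_smul' := fun c p => by
        simp only [ev_smul, RingHom.id_apply, smul_eq_mul]
        exact intervalIntegral.integral_const_mul c _ } 1 (by
    intro p
    rw [one_mul, norm_eq]
    calc ‖∫ t in a..b, ev p t‖ ≤ ∫ t in a..b, |ev p t| := by
          rw [Real.norm_eq_abs]
          exact intervalIntegral.abs_integral_le_integral_abs hab
      _ ≤ ∫ t in (0 : ℝ)..1, |ev p t| := by
          apply intervalIntegral.integral_mono_interval ha hab hb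
          · exact Eventually.of_forall fun t => abs_nonneg _
          · exact int_abs p 0 1)

lemma intL_apply (a b : ℝ) (ha : 0 ≤ a) (hab : a ≤ b) (hb : b ≤ 1) (p : Poly) :
    intL a b ha hab hb p = ∫ t in a..b, ev p t := rfl

/-- Multiplication of polynomials. -/
noncomputable def mulP (u q : Poly) : Poly := (show ℝ[X] from u) * (show ℝ[X] from q)

lemma ev_mulP (u q : Poly) (t : ℝ) : ev (mulP u q) t = ev u t * ev q t := Polynomial.eval_mul

/-- The constant polynomial. -/
noncomputable def cst (c : ℝ) : Poly := (Polynomial.C c : ℝ[X])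

lemma ev_cst (c t : ℝ) : ev (cst c) t = c := Polynomial.eval_C

/-- The ideal generated by a nonzero polynomial is dense. -/
lemma dense_ideal {u : Poly} (hu : u ≠ 0) (p : Poly) (ε : ℝ) (hε : 0 < ε) :
    ∃ q : Poly, ‖p - mulP u q‖ < ε := by
  -- step 1
  have h1 : Tendsto (fun n : ℕ => ∫ t in (0 : ℝ)..1,
      |ev p t| * ((1 / ((n : ℝ) + 1)) / (ev u t ^ 2 + 1 / ((n : ℝ) + 1)))) atTop
      (𝓝 (∫ t in (0 : ℝ)..1, (0 : ℝ))) := by
    apply intervalIntegral.tendsto_integral_filter_of_dominated_convergence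
      (fun t => |ev p t|)
    · apply Eventually.of_forall
      intro n
      have hpos : 0 < 1 / ((n : ℝ) + 1) := by positivity
      have hc : Continuous fun t => |ev p t| * ((1 / ((n : ℝ) + 1)) /
          (ev u t ^ 2 + 1 / ((n : ℝ) + 1))) := by
        apply (continuous_ev p).abs.mul
        apply continuous_const.div
        · exact ((continuous_ev u).pow 2).add continuous_const
        · intro t; positivity
      exact hc.aestronglyMeasurable
    · apply Eventually.of_forall
      intro n
      apply Eventually.of_forall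
      intro t _
      have hpos : 0 < 1 / ((n : ℝ) + 1) := by positivity
      rw [Real.norm_eq_abs, abs_mul, abs_abs]
      have h2 : |(1 / ((n : ℝ) + 1)) / (ev u t ^ 2 + 1 / ((n : ℝ) + 1))| ≤ 1 := by
        rw [abs_of_nonneg (by positivity), div_le_one (by positivity)]
        nlinarith [sq_nonneg (ev u t)]
      calc |ev p t| * _ ≤ |ev p t| * 1 := by gcongr
        _ = |ev p t| := mul_one _
    · exact int_abs p 0 1
    · have hfin : {t : ℝ | ev u t = 0}.Finite := by
        have : (show ℝ[X] from u) ≠ 0 := hu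
        have h2 := Polynomial.finite_setOf_isRoot this
        exact h2
      have hae : ∀ᵐ t : ℝ, ev u t ≠ 0 := by
        have := hfin.countable.ae_notMem volume
        filter_upwards [this] with t ht
        exact ht
      filter_upwards [hae] with t ht _
      have h2 : Tendsto (fun n : ℕ => 1 / ((n : ℝ) + 1)) atTop (𝓝 0) :=
        tendsto_one_div_add_atTop_nhds_zero_nat
      have h3 : Tendsto (fun n : ℕ => |ev p t| * ((1 / ((n : ℝ) + 1)) /
          (ev u t ^ 2 + 1 / ((n : ℝ) + 1)))) atTop (𝓝 (|ev p t| * (0 / (ev u t ^ 2 + 0)))) := by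
        apply Tendsto.const_mul
        apply h2.div (h2.const_add _)
        have : 0 < ev u t ^ 2 := by positivity
        linarith
      simpa using h3
  rw [intervalIntegral.integral_zero] at h1
  obtain ⟨n, hn⟩ := (h1.eventually_lt_const (show (0 : ℝ) < ε / 2 by positivity)).exists
  set d : ℝ := 1 / ((n : ℝ) + 1) with hd
  have hdpos : 0 < d := by positivity
  set f : ℝ → ℝ := fun t => ev p t * ev u t / (ev u t ^ 2 + d) with hf
  have hfc : Continuous f := by
    apply ((continuous_ev p).mul (continuous_ev u)).div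
    · exact ((continuous_ev u).pow 2).add continuous_const
    · intro t; positivity
  -- step 2
  set δ : ℝ := ε / 2 / (‖u‖ + 1) with hδ
  have hδ0 : 0 < δ := by positivity
  obtain ⟨q, hq⟩ := exists_polynomial_near_of_continuousOn 0 1 f hfc.continuousOn δ hδ0
  refine ⟨q, ?_⟩
  have hint1 : IntervalIntegrable (fun t => |ev p t| * (d / (ev u t ^ 2 + d))) volume 0 1 := by
    apply Continuous.intervalIntegrable
    apply (continuous_ev p).abs.mul
    apply continuous_const.div
    · exact ((continuous_ev u).pow 2).add continuous_const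
    · intro t; positivity
  have h4 : ‖p - mulP u q‖ ≤ ∫ t in (0 : ℝ)..1, (|ev p t| * (d / (ev u t ^ 2 + d)) +
      δ * |ev u t|) := by
    rw [norm_eq]
    apply intervalIntegral.integral_mono_on (by norm_num) (int_abs _ 0 1)
      (hint1.add ((int_abs u 0 1).const_mul δ))
    intro t ht
    have h5 : ev (p - mulP u q) t = ev p t * (d / (ev u t ^ 2 + d)) +
        ev u t * (f t - Polynomial.eval t q) := by
      rw [ev_sub, ev_mulP]
      have : ev (show Poly from q) t = Polynomial.eval t q := rfl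
      rw [this, hf]
      have hne : ev u t ^ 2 + d ≠ 0 := by positivity
      field_simp
      ring
    rw [h5]
    refine (abs_add_le _ _).trans ?_
    have h6 : |ev p t * (d / (ev u t ^ 2 + d))| = |ev p t| * (d / (ev u t ^ 2 + d)) := by
      rw [abs_mul, abs_of_nonneg (a := d / (ev u t ^ 2 + d)) (by positivity)]
    have h7 : |ev u t * (f t - Polynomial.eval t q)| ≤ δ * |ev u t| := by
      rw [abs_mul, mul_comm]
      have := hq t ht
      rw [abs_sub_comm] at this
      gcongr
    rw [h6]
    gcongr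
  have h8 : ∫ t in (0 : ℝ)..1, (|ev p t| * (d / (ev u t ^ 2 + d)) + δ * |ev u t|) =
      (∫ t in (0 : ℝ)..1, |ev p t| * (d / (ev u t ^ 2 + d))) + δ * ‖u‖ := by
    rw [intervalIntegral.integral_add hint1 ((int_abs u 0 1).const_mul δ),
      intervalIntegral.integral_const_mul, norm_eq]
  rw [h8] at h4
  have h9 : δ * ‖u‖ ≤ ε / 2 := by
    rw [hδ, div_mul_eq_mul_div, div_le_iff₀ (by positivity)]
    nlinarith [norm_nonneg u]
  linarith

lemma smul_mem_Kc {u : Poly} (hu : u ∈ Kc) {c : ℝ} (hc : 0 ≤ c) : c • u ∈ Kc := by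
  intro t ht
  rw [ev_smul]
  exact mul_nonneg hc (hu t ht)

lemma zero_mem_Kc : (0 : Poly) ∈ Kc := fun t _ => by rw [ev_zero]

/-- The normal cone operator of `Kc`. -/
def NK : Set (Poly × (Poly →L[ℝ] ℝ)) := {p | p.1 ∈ Kc ∧ ∀ v ∈ Kc, p.2 (v - p.1) ≤ 0}

lemma apply_self_eq_zero {u : Poly} {w : Poly →L[ℝ] ℝ} (h : (u, w) ∈ NK) : w u = 0 := by
  have h1 := h.2 0 zero_mem_Kc
  have h2 := h.2 ((2 : ℝ) • u) (smul_mem_Kc h.1 (by norm_num))
  simp only [zero_sub, map_neg, map_sub, map_smul, smul_eq_mul] at h1 h2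
  linarith

lemma apply_nonpos {u : Poly} {w : Poly →L[ℝ] ℝ} (h : (u, w) ∈ NK) {v : Poly} (hv : v ∈ Kc) :
    w v ≤ 0 := by
  have h1 := h.2 v hv
  rw [map_sub, apply_self_eq_zero h] at h1
  linarith

/-- The normal cone at a nonzero point is trivial. -/
lemma eq_zero_of_mem {u : Poly} {w : Poly →L[ℝ] ℝ} (h : (u, w) ∈ NK) (hu : u ≠ 0) : w = 0 := by
  have hideal : ∀ q : Poly, w (mulP u q) = 0 := by
    intro q
    obtain ⟨M, hM⟩ := isCompact_Icc.exists_bound_of_continuousOn
      (continuous_ev q).continuousOn (s := Set.Icc (0 : ℝ) 1)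
    have hM' : ∀ t ∈ Set.Icc (0 : ℝ) 1, -M ≤ ev q t ∧ ev q t ≤ M := fun t ht => abs_le.1 (hM t ht)
    have a1 : w (mulP u (q + cst M)) ≤ 0 := by
      apply apply_nonpos h
      intro t ht
      rw [ev_mulP, ev_add, ev_cst]
      exact mul_nonneg (h.1 t ht) (by linarith [(hM' t ht).1])
    have a2 : w (mulP u (cst M - q)) ≤ 0 := by
      apply apply_nonpos h
      intro t ht
      rw [ev_mulP, ev_sub, ev_cst]
      exact mul_nonneg (h.1 t ht) (by linarith [(hM' t ht).2])
    have e0 : mulP u (cst M) = M • u := by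
      have : mulP u (cst M) = (show ℝ[X] from u) * Polynomial.C M := rfl
      rw [this, mul_comm, ← Polynomial.smul_eq_C_mul]
      rfl
    have e1 : mulP u (q + cst M) = mulP u q + mulP u (cst M) := by
      exact mul_add (show ℝ[X] from u) (show ℝ[X] from q) (show ℝ[X] from cst M)
    have e2 : mulP u (cst M - q) = mulP u (cst M) - mulP u q := by
      exact mul_sub (show ℝ[X] from u) (show ℝ[X] from cst M) (show ℝ[X] from q)
    rw [e1, map_add, e0, map_smul, apply_self_eq_zero h, smul_zero, add_zero] at a1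
    rw [e2, map_sub, e0, map_smul, apply_self_eq_zero h, smul_zero, zero_sub] at a2
    linarith
  apply ContinuousLinearMap.ext
  intro p
  rw [zero_apply, ← norm_le_zero_iff]
  apply le_of_forall_pos_le_add
  intro ε hε
  obtain ⟨q, hq⟩ := dense_ideal hu p (ε / (‖w‖ + 1)) (by positivity)
  have h1 : w p = w (p - mulP u q) := by rw [map_sub, hideal, sub_zero]
  rw [h1, zero_add]
  calc ‖w (p - mulP u q)‖ ≤ ‖w‖ * ‖p - mulP u q‖ := w.le_opNorm _
    _ ≤ (‖w‖ + 1) * (ε / (‖w‖ + 1)) := by gcongr; linarith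
    _ = ε := by field_simp

/-- A polynomial on which all functionals that are nonpositive on `Kc` are nonpositive belongs to
`Kc`. -/
lemma mem_Kc_of_functionals {x : Poly}
    (h : ∀ w : Poly →L[ℝ] ℝ, (∀ v ∈ Kc, w v ≤ 0) → w x ≤ 0) : x ∈ Kc := by
  by_contra hx
  simp only [Kc, Set.mem_ofPred_eq] at hx
  push Not at hx
  obtain ⟨t₀, ht₀, hneg⟩ := hx
  -- an interval on which `x` is negative
  have hopen : {t : ℝ | ev x t < 0} ∈ 𝓝 t₀ :=
    (isOpen_lt (continuous_ev x) continuous_const).mem_nhds hneg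
  obtain ⟨r, hr, hball⟩ := Metric.mem_nhds_iff.1 hopen
  obtain ⟨a, b, ha, hab, hb, hab'⟩ : ∃ a b : ℝ, 0 ≤ a ∧ a < b ∧ b ≤ 1 ∧
      ∀ t ∈ Set.Icc a b, ev x t < 0 := by
    rcases lt_or_ge t₀ 1 with h1 | h1
    · refine ⟨t₀, min 1 (t₀ + r / 2), ht₀.1, lt_min h1 (by linarith), min_le_left _ _, ?_⟩
      intro t ht
      apply hball
      rw [Metric.mem_ball, Real.dist_eq, abs_lt]
      have := ht.2.trans (min_le_right _ _)
      constructor <;> linarith [ht.1]
    · have h2 : t₀ = 1 := le_antisymm ht₀.2 h1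
      refine ⟨max 0 (1 - r / 2), 1, le_max_left _ _, max_lt (by norm_num) (by linarith), le_rfl, ?_⟩
      intro t ht
      apply hball
      rw [Metric.mem_ball, Real.dist_eq, abs_lt, h2]
      have := (le_max_right _ _).trans ht.1
      constructor <;> linarith [ht.2]
  have h1 := h (-intL a b ha hab.le hb) (by
    intro v hv
    rw [neg_apply, intL_apply, neg_nonpos]
    apply intervalIntegral.integral_nonneg hab.le
    intro t ht
    exact hv t ⟨ha.trans ht.1, ht.2.trans hb⟩)
  rw [neg_apply, intL_apply, neg_nonpos] at h1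
  have h2 : 0 < ∫ t in a..b, - ev x t := by
    apply intervalIntegral.intervalIntegral_pos_of_pos_on (int_ev x a b).neg _ hab
    intro t ht
    have := hab' t ⟨ht.1.le, ht.2.le⟩
    simp only [Pi.neg_apply]
    linarith
  rw [intervalIntegral.integral_neg] at h2
  linarith

/-- From relatedness with the normal cone at `0`. -/
lemma mem_Kc_of_related {x : Poly} {x' : Poly →L[ℝ] ℝ}
    (h : ∀ w : Poly →L[ℝ] ℝ, (∀ v ∈ Kc, w v ≤ 0) → 0 ≤ (x' - w) (x - 0)) : x ∈ Kc := by
  apply mem_Kc_of_functionals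
  intro w hw
  by_contra hcon
  push Not at hcon
  obtain ⟨n, hn⟩ := exists_nat_gt (x' x / w x)
  have h1 := h ((n : ℝ) • w) (by
    intro v hv
    rw [smul_apply, smul_eq_mul]
    exact mul_nonpos_of_nonneg_of_nonpos (Nat.cast_nonneg n) (hw v hv))
  rw [sub_zero, sub_apply, smul_apply, smul_eq_mul] at h1
  rw [div_lt_iff₀ hcon] at hn
  linarith

lemma zero_mem_NK {w : Poly →L[ℝ] ℝ} (hw : ∀ v ∈ Kc, w v ≤ 0) : ((0 : Poly), w) ∈ NK := by
  refine ⟨zero_mem_Kc, fun v hv => ?_⟩
  simpa using hw v hv

lemma mem_NK_zero {u : Poly} (hu : u ∈ Kc) : (u, (0 : Poly →L[ℝ] ℝ)) ∈ NK :=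
  ⟨hu, fun v _ => by simp⟩

theorem NK_maximal : IsMaximalMonotoneOp NK := by
  constructor
  · rintro ⟨u, w⟩ hu ⟨u', w'⟩ hu'
    have h1 := hu.2 u' hu'.1
    have h2 := hu'.2 u hu.1
    simp only [map_sub, sub_apply] at *
    linarith
  · rintro ⟨x, x'⟩ h
    have hx : x ∈ Kc := mem_Kc_of_related fun w hw => h (0, w) (zero_mem_NK hw)
    refine ⟨hx, fun v hv => ?_⟩
    have h1 := h (v, 0) (mem_NK_zero hv)
    simp only [sub_zero, map_sub] at h1 ⊢
    linarith

/-- The open half-space of polynomials with positive integral. -/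
def V : Set Poly := {p | 0 < intL 0 1 le_rfl zero_le_one le_rfl p}

theorem isOpen_V : IsOpen V :=
  isOpen_lt continuous_const (intL 0 1 le_rfl zero_le_one le_rfl).continuous

theorem convex_V : Convex ℝ V := by
  intro x hx y hy a b ha hb hab
  simp only [V, Set.mem_ofPred_eq] at *
  rw [map_add, map_smul, map_smul, smul_eq_mul, smul_eq_mul]
  rcases ha.eq_or_lt with rfl | ha'
  · have : b = 1 := by linarith
    rw [this]; linarith
  · have h1 := mul_pos ha' hx
    have h2 := mul_nonneg hb hy.le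
    linarith

lemma one_mem_V : cst 1 ∈ V := by
  simp only [V, Set.mem_ofPred_eq, intL_apply, ev_cst]
  simp

lemma zero_mem_closure : (0 : Poly) ∈ closure V := by
  have h1 : Tendsto (fun n : ℕ => (1 / ((n : ℝ) + 1)) • cst 1) atTop (𝓝 ((0 : ℝ) • cst 1)) :=
    tendsto_one_div_add_atTop_nhds_zero_nat.smul_const _
  rw [zero_smul] at h1
  apply mem_closure_of_tendsto h1
  apply Eventually.of_forall
  intro n
  simp only [V, Set.mem_ofPred_eq]
  rw [map_smul, smul_eq_mul]
  exact mul_pos (by positivity) one_mem_V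

theorem closure_locates : Locates (closure V) NK := by
  rintro ⟨x, x'⟩ hx h
  have hxK : x ∈ Kc := mem_Kc_of_related fun w hw => h (0, w) ⟨zero_mem_NK hw, zero_mem_closure⟩
  exact ⟨0, mem_NK_zero hxK⟩

theorem not_locates : ¬ Locates V NK := by
  intro h
  set x : Poly := (Polynomial.X - Polynomial.C (1 / 4) : ℝ[X]) with hx
  have hev : ∀ t, ev x t = t - 1 / 4 := by
    intro t
    have : ev x t = Polynomial.eval t (Polynomial.X - Polynomial.C (1 / 4) : ℝ[X]) := rfl
    rw [this]; simp
  have hxV : x ∈ V := by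
    simp only [V, Set.mem_ofPred_eq, intL_apply, hev]
    rw [intervalIntegral.integral_sub (by simp) (by simp)]
    simp
    norm_num
  have hrel : MonotonicallyRelated (restrict NK V) (x, 0) := by
    rintro ⟨u, w⟩ ⟨huw, huV⟩
    have hu0 : u ≠ 0 := by
      rintro rfl
      simp only [V, Set.mem_ofPred_eq, map_zero, lt_self_iff_false] at huV
    have hw : w = 0 := eq_zero_of_mem huw hu0
    simp [hw]
  obtain ⟨x', hx'⟩ := h (x, 0) hxV hrel
  have := hx'.1 0 ⟨le_rfl, zero_le_one⟩
  simp only [hev] at this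
  norm_num at this

end Q93.Loc
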