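import Pool.Agent.Q93.Loc.Defs

/-!
The space of real polynomials with the norm of `L¹(0,1)` and the cone of polynomials which are
nonnegative on `[0,1]`.
-/

set_option autoImplicit false

namespace Q93.Loc

open Polynomial MeasureTheory Filter Topology
open scoped Polynomial

/-- The space of real polynomials (to be normed by the `L¹(0,1)` norm). -/
def Poly : Type := ℝ[X]

noncomputable instance : AddCommGroup Poly := inferInstanceAs (AddCommGroup ℝ[X])
noncomputable instance : Module ℝ Poly := inferInstanceAs (Module ℝ ℝ[X])

/-- The value of `p` at `t`. -/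
noncomputable def ev (p : Poly) (t : ℝ) : ℝ := Polynomial.eval t (show ℝ[X] from p)

lemma ev_add (p q : Poly) (t : ℝ) : ev (p + q) t = ev p t + ev q t := Polynomial.eval_add

lemma ev_smul (c : ℝ) (p : Poly) (t : ℝ) : ev (c • p) t = c * ev p t := by
  have : ev (c • p) t = Polynomial.eval t (c • (show ℝ[X] from p)) := rfl
  rw [this, Polynomial.eval_smul]; rfl

lemma ev_neg (p : Poly) (t : ℝ) : ev (-p) t = - ev p t := Polynomial.eval_neg _ _

lemma ev_sub (p q : Poly) (t : ℝ) : ev (p - q) t = ev p t - ev q t := Polynomial.eval_sub _ _ _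

lemma ev_zero (t : ℝ) : ev 0 t = 0 := Polynomial.eval_zero

lemma continuous_ev (p : Poly) : Continuous (ev p) := Polynomial.continuous _

lemma eq_zero_of_ev {p : Poly} (h : ∀ t ∈ Set.Ioo (0 : ℝ) 1, ev p t = 0) : p = 0 := by
  have : (show ℝ[X] from p) = 0 := by
    apply Polynomial.eq_zero_of_infinite_isRoot
    apply (Set.Ioo_infinite (show (0 : ℝ) < 1 by norm_num)).mono
    intro t ht
    exact h t ht
  exact this

noncomputable instance : Norm Poly := ⟨fun p => ∫ t in (0 : ℝ)..1, |ev p t|⟩

lemma norm_def (p : Poly) : ‖p‖ = ∫ t in (0 : ℝ)..1, |ev p t| := rfl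

lemma int_abs (p : Poly) (a b : ℝ) :
    IntervalIntegrable (fun t => |ev p t|) volume a b :=
  (continuous_ev p).abs.intervalIntegrable _ _

lemma int_ev (p : Poly) (a b : ℝ) :
    IntervalIntegrable (fun t => ev p t) volume a b :=
  (continuous_ev p).intervalIntegrable _ _

lemma core : NormedSpace.Core ℝ Poly where
  norm_nonneg p := intervalIntegral.integral_nonneg (by norm_num) fun t _ => abs_nonneg _
  norm_smul c p := by
    rw [norm_def, norm_def, Real.norm_eq_abs, ← intervalIntegral.integral_const_mul]
    congr 1
    funext t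
    rw [ev_smul, abs_mul]
  norm_triangle p q := by
    rw [norm_def, norm_def, norm_def,
      ← intervalIntegral.integral_add (int_abs p 0 1) (int_abs q 0 1)]
    apply intervalIntegral.integral_mono_on (by norm_num) (int_abs _ 0 1)
      ((int_abs p 0 1).add (int_abs q 0 1))
    intro t _
    rw [ev_add]
    exact abs_add_le _ _
  norm_eq_zero_iff p := by
    constructor
    · intro h
      apply eq_zero_of_ev
      intro t ht
      by_contra hne
      have hpos : 0 < ∫ t in (0 : ℝ)..1, |ev p t| := by
        apply intervalIntegral.integral_pos (by norm_num) (continuous_ev p).abs.continuousOn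
          (fun x _ => abs_nonneg _)
        exact ⟨t, ⟨ht.1.le, ht.2.le⟩, abs_pos.2 hne⟩
      rw [norm_def] at h
      linarith
    · rintro rfl
      rw [norm_def]
      simp [ev_zero]

noncomputable instance : NormedAddCommGroup Poly := NormedAddCommGroup.ofCore core
noncomputable instance : NormedSpace ℝ Poly := NormedSpace.ofCore core

/-- The cone of polynomials nonnegative on `[0,1]`. -/
def Kc : Set Poly := {p | ∀ t ∈ Set.Icc (0 : ℝ) 1, 0 ≤ ev p t}

end Q93.Loc
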